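/-
Convex foliations of the projective plane (problem MP_ad5dfa_ag, frozen statement S00367).
Definitions and statements of the independent parts of the proof.
-/
import Mathlib

set_option autoImplicit false
open MvPolynomial

namespace Pool.Agent.W510.Cvx

/-- homogeneous coordinates `x = X 0`, `y = X 1`, `z = X 2` -/
abbrev R3 := MvPolynomial (Fin 3) ℂ
/-- affine coordinates `x = X 0`, `z = X 1` -/
abbrev R2 := MvPolynomial (Fin 2) ℂ

/-- The linear form with coefficient vector `a`. -/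
noncomputable def lin (a : Fin 3 → ℂ) : R3 := ∑ i : Fin 3, C (a i) * X i

/-- The derivative of `f` along the vector field `V`. -/
noncomputable def drv (V : Fin 3 → R3) (f : R3) : R3 := ∑ k : Fin 3, V k * pderiv k f

/-- The inflection polynomial. -/
noncomputable def infl (V : Fin 3 → R3) : R3 :=
  Matrix.det (Matrix.of ![(fun j : Fin 3 => (X j : R3)), V, (fun j : Fin 3 => drv V (V j))])

/-- Convex foliation of degree `d` given by the homogeneous vector field `V`. -/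
structure Cv (d : ℕ) (V : Fin 3 → R3) : Prop where
  hom : ∀ i, (V i).IsHomogeneous d
  cop : ∀ p : R3, p ∣ V 1 * X 2 - V 2 * X 1 → p ∣ V 2 * X 0 - V 0 * X 2 →
      p ∣ V 0 * X 1 - V 1 * X 0 → IsUnit p
  ne : infl V ≠ 0
  fac : ∀ p : R3, Irreducible p → p ∣ infl V →
      ∃ a : Fin 3 → ℂ, Associated p (lin a) ∧ lin a ∣ ∑ i : Fin 3, C (a i) * V i

/-- The line `a = 0` is an inflection line. -/
def IL (V : Fin 3 → R3) (a : Fin 3 → ℂ) : Prop := a ≠ 0 ∧ lin a ∣ infl V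

/-- The line `a = 0` is a nonreduced inflection line. -/
def NR (V : Fin 3 → R3) (a : Fin 3 → ℂ) : Prop := a ≠ 0 ∧ lin a ^ 2 ∣ infl V

/-- dot product -/
def dot (a p : Fin 3 → ℂ) : ℂ := a 0 * p 0 + a 1 * p 1 + a 2 * p 2

/-- Normal form of a convex foliation with the nonreduced inflection line `y = 0` and special
point `(1,0,0)` : `V = (P, 0, Q)`, `y` does not divide `P`, `y ^ (k-1)` divides `Q` exactly, `k ≥ 2`. -/
structure NF (d k : ℕ) (P Q : R3) : Prop where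
  cv : Cv d ![P, 0, Q]
  two : 2 ≤ k
  hP : ¬ (X 1 : R3) ∣ P
  hQ : (X 1 : R3) ^ (k - 1) ∣ Q
  hQ' : ¬ (X 1 : R3) ^ k ∣ Q

/-! ### restriction to the lines `y = m x + b z` -/

/-- The restriction of a polynomial to the line `y = m x + b z`. -/
noncomputable def ls (m b : ℂ) : R3 →ₐ[ℂ] R2 :=
  aeval ![(X 0 : R2), C m * X 0 + C b * X 1, X 1]

/-- The tangency polynomial of the line `y = m x + b z`. -/
noncomputable def TT (P Q : R3) (m b : ℂ) : R2 := C m * ls m b P + C b * ls m b Q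

/-- The restriction to `y = 0`, `z = 1`, as a polynomial in `x`. -/
noncomputable def r0 : R3 →ₐ[ℂ] Polynomial ℂ := aeval ![(Polynomial.X : Polynomial ℂ), 0, 1]

/-! ### Statements -/

/-- (A) The analytic lemma. -/
def S_root : Prop := ∀ (d e : ℕ) (c : ℕ → ℂ → ℂ → ℂ) (u0 : ℂ) (ε : ℝ), 0 < ε → 1 ≤ e →
  (∀ k, Continuous (fun p : ℂ × ℂ => c k p.1 p.2)) →
  (∀ k b, Differentiable ℂ (fun u => c k u b)) →
  (∀ u b, ‖u - u0‖ ≤ ε → ‖b‖ ≤ ε → c d u b ≠ 0) →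
  (∀ u b x, ‖u - u0‖ ≤ ε → 0 < ‖b‖ → ‖b‖ ≤ ε →
    (∑ k ∈ Finset.range (d + 1), c k u b * x ^ k) = 0 →
    (∑ k ∈ Finset.range (d + 1), c k u b * (k * x ^ (k - 1))) ≠ 0) →
  (∀ u, u ≠ u0 → ‖u - u0‖ ≤ ε → (∀ k < e, c k u 0 = 0) ∧ c e u 0 ≠ 0) →
  (∀ k ≤ e, c k u0 0 = 0) → False

/-- (B) Lines near `y = 0` not through the singular points are simply tangent. -/
def S_simple : Prop := ∀ (d k : ℕ) (P Q : R3), 2 ≤ d → NF d k P Q →
  ∃ ε : ℝ, 0 < ε ∧ ∀ m b : ℂ, m ≠ 0 → b ≠ 0 → ‖b‖ < ε → ‖m‖ < ε * ‖b‖ →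
    ∀ w : Fin 2 → ℂ, w ≠ 0 → eval w (TT P Q m b) = 0 →
      ¬ (eval w (pderiv 0 (TT P Q m b)) = 0 ∧ eval w (pderiv 1 (TT P Q m b)) = 0)

/-- (C1) The counting lemma, nonconstant type. -/
def S_countN : Prop := ∀ P A : Polynomial ℂ, P ≠ 0 → A ≠ 0 → P.natDegree ≠ A.natDegree →
  (∀ s, P.IsRoot s → P.rootMultiplicity s ≠ A.rootMultiplicity s) →
  (∀ s, ¬ P.IsRoot s → (P * Polynomial.derivative A - A * Polynomial.derivative P).eval s ≠ 0) →
  ∃ γ α β : ℂ, ∃ i j : ℕ, i ≠ j ∧ α ≠ 0 ∧ β ≠ 0 ∧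
    A = Polynomial.C α * (Polynomial.X - Polynomial.C γ) ^ i ∧
    P = Polynomial.C β * (Polynomial.X - Polynomial.C γ) ^ j

/-- (C2) The counting lemma, constant type. -/
def S_countC : Prop := ∀ P A : Polynomial ℂ, P ≠ 0 → A ≠ 0 → P.natDegree < A.natDegree →
  (∀ s, P.IsRoot s → A.rootMultiplicity s < P.rootMultiplicity s) →
  (∀ s, ¬ P.IsRoot s → (P * Polynomial.derivative A - A * Polynomial.derivative P).eval s ≠ 0) →
  P.natDegree = 0 ∧ A.natDegree = 1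

/-- The inflection polynomial of `P ∂x + Q ∂z` in the affine plane. -/
noncomputable def E2 (P Q : R2) : R2 :=
  P * (P * pderiv 0 Q - Q * pderiv 0 P) + Q * (P * pderiv 1 Q - Q * pderiv 1 P)

/-- (R) The resonance lemma. -/
def S_reson : Prop := ∀ (P Q : R2) (κ : ℕ) (g : Polynomial ℂ), 2 ≤ κ →
  ¬ (X 1 : R2) ∣ P → (X 1 : R2) ^ κ ∣ Q → ¬ (X 1 : R2) ^ (κ + 1) ∣ Q →
  g ≠ 0 → E2 P Q = Polynomial.aeval (X 1 : R2) g → ¬ Polynomial.X ^ (2 * κ) ∣ g

/-- (S) The slope lemma. -/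
def S_slope : Prop := ∀ (P Q : R2) (r d : ℕ) (g : Polynomial ℂ), P ≠ 0 →
  P.totalDegree = r → Q.totalDegree = d → r < d →
  g ≠ 0 → g.natDegree = 2 * d + r - 1 → E2 P Q = Polynomial.aeval (X 1 : R2) g →
  ∃ p q : Polynomial ℂ, P = Polynomial.aeval (X 1 : R2) p ∧ Q = Polynomial.aeval (X 1 : R2) q

/-- (F) The last step, in one variable. -/
def S_last : Prop := ∀ p q : Polynomial ℂ, p ≠ 0 → IsCoprime p q → p.natDegree < q.natDegree →
  2 ≤ q.natDegree →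
  (∀ s, (p * Polynomial.derivative q - q * Polynomial.derivative p).IsRoot s → q.IsRoot s) →
  p.natDegree = 0 ∧ ∃ b β : ℂ, q = Polynomial.C β * (Polynomial.X - Polynomial.C b) ^ q.natDegree

/-- The data of the expansion of the tangency polynomial on the lines
`y = (F b + u b ^ n) x + b z` near the line `y = 0`; here `infl = y ^ n * I'`. -/
structure Expn (d k n : ℕ) (P Q I' : R3) (F A : Polynomial ℂ) (g : ℕ → ℂ → ℂ → ℂ) : Prop where
  two : 2 ≤ n
  cont : ∀ j, Continuous (fun p : ℂ × ℂ => g j p.1 p.2)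
  diff : ∀ j b, Differentiable ℂ (fun u => g j u b)
  exp : ∀ u b x z : ℂ, eval ![x, z] (TT P Q (F.eval b + u * b ^ n) b) =
    b ^ n * ∑ j ∈ Finset.range (d + 1), g j u b * x ^ j * z ^ (d - j)
  zero : ∀ j u, j ≤ d → g j u 0 = A.coeff j + u * (r0 P).coeff j
  deg : A.natDegree ≤ d
  wron : r0 I' = -(r0 P * (r0 P * Polynomial.derivative A - A * Polynomial.derivative (r0 P)))
  typ : (n = k ∧ F = 0 ∧ A.natDegree < d) ∨
    (k < n ∧ (∃ F' : Polynomial ℂ, F = Polynomial.X ^ k * F' ∧ F'.eval 0 ≠ 0) ∧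
      (r0 P).natDegree < d)

/-- (E) Existence of the expansion. -/
def S_exp : Prop := ∀ (d k n : ℕ) (P Q I' : R3), 2 ≤ d → NF d k P Q →
  infl ![P, 0, Q] = X 1 ^ n * I' → ¬ (X 1 : R3) ∣ I' →
  ∃ (F A : Polynomial ℂ) (g : ℕ → ℂ → ℂ → ℂ), Expn d k n P Q I' F A g

/-- (NB) No bad points on the line `y = 0`. -/
def S_nobad : Prop := ∀ (d k n : ℕ) (P Q I' : R3) (F A : Polynomial ℂ) (g : ℕ → ℂ → ℂ → ℂ),
  2 ≤ d → NF d k P Q → infl ![P, 0, Q] = X 1 ^ n * I' → ¬ (X 1 : R3) ∣ I' →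
  Expn d k n P Q I' F A g →
  (n = k → (r0 P).natDegree ≠ A.natDegree ∧
    ∀ s, (r0 P).IsRoot s → (r0 P).rootMultiplicity s ≠ A.rootMultiplicity s) ∧
  (k < n → (r0 P).natDegree < A.natDegree ∧
    ∀ s, (r0 P).IsRoot s → A.rootMultiplicity s < (r0 P).rootMultiplicity s)

/-! ### linear changes of coordinates -/

/-- Substitution `X k ↦ ∑ j, M k j X j`. -/
noncomputable def sub (M : Matrix (Fin 3) (Fin 3) ℂ) : R3 →ₐ[ℂ] R3 :=
  aeval (fun k : Fin 3 => ∑ j : Fin 3, (C (M k j) * X j : R3))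

/-- The vector field `V` in the coordinates given by `M`, with inverse matrix `N`. -/
noncomputable def act (M N : Matrix (Fin 3) (Fin 3) ℂ) (V : Fin 3 → R3) : Fin 3 → R3 :=
  fun i => ∑ j : Fin 3, C (N i j) * sub M (V j)

/-- (G1) Change of coordinates in the inflection polynomial. -/
def S_act : Prop := ∀ (M N : Matrix (Fin 3) (Fin 3) ℂ) (V : Fin 3 → R3), M * N = 1 →
  infl (act M N V) = C N.det * sub M (infl V)

/-- (G2) Change of coordinates and convexity. -/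
def S_actC : Prop := ∀ (d : ℕ) (M N : Matrix (Fin 3) (Fin 3) ℂ) (V : Fin 3 → R3), M * N = 1 →
  Cv d V → Cv d (act M N V)

/-- (G3) Adding a multiple of the radial field. -/
def S_rad : Prop := ∀ (d : ℕ) (h : R3) (V : Fin 3 → R3), 1 ≤ d → h.IsHomogeneous (d - 1) →
  (∀ i, (V i).IsHomogeneous d) →
  infl (fun i => V i + h * X i) = infl V ∧ (Cv d V → Cv d (fun i => V i + h * X i))

/-- (G4) Normal form near a nonreduced inflection line. -/
def S_norm : Prop := ∀ (d : ℕ) (V : Fin 3 → R3) (a : Fin 3 → ℂ), 2 ≤ d → Cv d V → NR V a →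
  ∃ (M N : Matrix (Fin 3) (Fin 3) ℂ) (h P Q : R3) (k : ℕ), M * N = 1 ∧ h.IsHomogeneous (d - 1) ∧
    (∀ i, act M N V i + h * X i = (![P, 0, Q] : Fin 3 → R3) i) ∧ NF d k P Q ∧
    sub M (lin a) = X 1

end Pool.Agent.W510.Cvx
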