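import Pool.Agent.W510.Cvx.Defs

set_option autoImplicit false
open MvPolynomial

namespace Pool.Agent.W510.Cvx

lemma lin_eq (a : Fin 3 → ℂ) : lin a = C (a 0) * X 0 + C (a 1) * X 1 + C (a 2) * X 2 := by
  simp [lin, Fin.sum_univ_three]

lemma eval_lin (q a : Fin 3 → ℂ) : eval q (lin a) = dot a q := by
  simp [lin_eq, dot]

lemma coeff_lin (a : Fin 3 → ℂ) (i : Fin 3) : coeff (Finsupp.single i 1) (lin a) = a i := by
  classical
  have h : ∀ j : Fin 3, coeff (Finsupp.single i 1) (C (a j) * X j : R3) = if j = i then a j else 0 := by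
    intro j
    rw [coeff_C_mul, coeff_X]
    by_cases h : j = i
    · subst h; simp
    · rw [if_neg, if_neg h, mul_zero]
      intro h2
      exact h ((Finsupp.single_left_inj one_ne_zero).1 h2)
  rw [lin, coeff_sum, Finset.sum_congr rfl (fun j _ => h j)]
  simp

lemma lin_hom (a : Fin 3 → ℂ) : (lin a).IsHomogeneous 1 := by
  refine IsHomogeneous.sum _ _ _ (fun i _ => ?_)
  simpa using (isHomogeneous_C _ (a i)).mul (isHomogeneous_X ℂ i)

lemma lin_ne {a : Fin 3 → ℂ} (ha : a ≠ 0) : lin a ≠ 0 := by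
  intro h
  apply ha
  funext i
  have := coeff_lin a i
  rw [h] at this
  simpa using this.symm

lemma lin_smul (c : ℂ) (a : Fin 3 → ℂ) : lin (c • a) = C c * lin a := by
  simp only [lin_eq, Pi.smul_apply, smul_eq_mul, C_mul]; ring

lemma lin_inj {a b : Fin 3 → ℂ} (h : lin a = lin b) : a = b := by
  funext i; rw [← coeff_lin a i, ← coeff_lin b i, h]

lemma lin_irr {a : Fin 3 → ℂ} (ha : a ≠ 0) : Irreducible (lin a) := by
  apply irreducible_of_totalDegree_eq_one
  · exact (lin_hom a).totalDegree (lin_ne ha)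
  · intro x hx
    obtain ⟨i, hi⟩ : ∃ i, a i ≠ 0 := by
      by_contra h; push Not at h; exact ha (funext h)
    have := hx (Finsupp.single i 1)
    rw [coeff_lin] at this
    exact isUnit_iff_ne_zero.2 (fun h0 => hi (by rw [h0] at this; exact zero_dvd_iff.1 this))

lemma lin_prime {a : Fin 3 → ℂ} (ha : a ≠ 0) : Prime (lin a) := (lin_irr ha).prime

/-- If one linear form divides another, they are proportional. -/
lemma lin_dvd {a b : Fin 3 → ℂ} (hb : b ≠ 0) (h : lin a ∣ lin b) :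
    ∃ c : ℂ, c ≠ 0 ∧ b = c • a := by
  obtain ⟨q, hq⟩ := h
  have hb0 := lin_ne hb
  have ha0 : lin a ≠ 0 := by intro h0; rw [h0, zero_mul] at hq; exact hb0 hq
  have hq0 : q ≠ 0 := by rintro rfl; rw [mul_zero] at hq; exact hb0 hq
  have hd : (lin a).totalDegree + q.totalDegree = (lin b).totalDegree := by
    rw [hq, totalDegree_mul_of_isDomain ha0 hq0]
  rw [(lin_hom a).totalDegree ha0, (lin_hom b).totalDegree hb0] at hd
  obtain ⟨c, hc⟩ := (totalDegree_eq_zero_iff_eq_C (p := q)).1 (by omega) |> fun h => (⟨_, h⟩ : ∃ c, q = C c)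
  refine ⟨c, ?_, ?_⟩
  · rintro rfl; apply hq0; rw [hc, C_0]
  · apply lin_inj; rw [hq, hc, lin_smul, mul_comm]

lemma eval_zero_of_dvd {a q : Fin 3 → ℂ} {f : R3} (h : lin a ∣ f) (hq : dot a q = 0) :
    eval q f = 0 := by
  obtain ⟨g, rfl⟩ := h
  rw [map_mul, eval_lin, hq, zero_mul]

lemma dot_smul_left (c : ℂ) (a p : Fin 3 → ℂ) : dot (c • a) p = c * dot a p := by
  simp [dot]; ring
lemma dot_smul_right (c : ℂ) (a p : Fin 3 → ℂ) : dot a (c • p) = c * dot a p := by
  simp [dot]; ring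
lemma dot_add_right (a p q : Fin 3 → ℂ) : dot a (p + q) = dot a p + dot a q := by
  simp [dot]; ring

/-- The irreducible factors of the inflection polynomial. -/
lemma Cv.irr {d : ℕ} {V : Fin 3 → R3} (hV : Cv d V) {p : R3} (hp : Irreducible p)
    (h : p ∣ infl V) : ∃ a, IL V a ∧ Associated p (lin a) ∧ lin a ∣ ∑ i : Fin 3, C (a i) * V i := by
  obtain ⟨a, h1, h2⟩ := hV.fac p hp h
  have ha : a ≠ 0 := by
    rintro rfl
    have : lin 0 = 0 := by simp [lin]
    rw [this] at h1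
    exact hp.ne_zero ((associated_zero_iff_eq_zero _).1 h1)
  exact ⟨a, ⟨ha, h1.symm.dvd.trans h⟩, h1, h2⟩

/-- Inflection lines are invariant. -/
lemma IL.inv {d : ℕ} {V : Fin 3 → R3} (hV : Cv d V) {a : Fin 3 → ℂ} (h : IL V a) :
    lin a ∣ ∑ i : Fin 3, C (a i) * V i := by
  obtain ⟨b, hb, h1, h2⟩ := hV.irr (lin_irr h.1) h.2
  obtain ⟨c, hc, rfl⟩ := lin_dvd hb.1 h1.dvd
  have : ∑ i : Fin 3, C ((c • a) i) * V i = C c * ∑ i : Fin 3, C (a i) * V i := by
    rw [Finset.mul_sum]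
    refine Finset.sum_congr rfl (fun i _ => ?_)
    simp only [Pi.smul_apply, smul_eq_mul, C_mul]; ring
  rw [this, lin_smul] at h2
  have hu : IsUnit (C c : R3) := (isUnit_iff_ne_zero.2 hc).map C
  exact (hu.mul_left_dvd.1 (hu.dvd_mul_left.1 h2))

/-- Through every zero of the inflection polynomial passes an inflection line. -/
lemma Cv.exists_IL {d : ℕ} {V : Fin 3 → R3} (hV : Cv d V) {q : Fin 3 → ℂ}
    (h : eval q (infl V) = 0) : ∃ a, IL V a ∧ dot a q = 0 := by
  obtain ⟨s, hs, hu⟩ := WfDvdMonoid.exists_factors (infl V) hV.ne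
  obtain ⟨u, hu⟩ := hu
  rw [← hu, map_mul, mul_eq_zero] at h
  have hu' : eval q (u : R3) ≠ 0 := (u.isUnit.map (eval q)).ne_zero
  have h3 := h.resolve_right hu'
  rw [map_multiset_prod] at h3
  obtain ⟨p, hp, hp0⟩ := Multiset.mem_map.1 (Multiset.prod_eq_zero_iff.1 h3)
  obtain ⟨a, ha, h1, -⟩ := hV.irr (hs p hp) ((Multiset.dvd_prod hp).trans ⟨u, hu.symm⟩)
  refine ⟨a, ha, ?_⟩
  rw [← eval_lin]
  obtain ⟨g, hg⟩ := h1.dvd
  rw [hg, map_mul, hp0, zero_mul]

end Pool.Agent.W510.Cvx
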