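import Pool.Agent.W510.Cvx.EWl

set_option autoImplicit false
open MvPolynomial

namespace Pool.Agent.W510.Cvx

lemma infl_eq (V : Fin 3 → R3) : infl V =
    X 0 * (V 1 * drv V (V 2) - V 2 * drv V (V 1)) - X 1 * (V 0 * drv V (V 2) - V 2 * drv V (V 0)) +
      X 2 * (V 0 * drv V (V 1) - V 1 * drv V (V 0)) := by
  simp only [infl, Matrix.det_fin_three, Matrix.of_apply, Matrix.cons_val_zero, Matrix.cons_val_one,
    Matrix.cons_val_two, Matrix.head_cons, Matrix.tail_cons]
  ring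

lemma drv_hom {d : ℕ} (hd : 1 ≤ d) {V : Fin 3 → R3} (hV : ∀ i, (V i).IsHomogeneous d) (i : Fin 3) :
    (drv V (V i)).IsHomogeneous (2 * d - 1) := by
  refine IsHomogeneous.sum _ _ _ (fun k _ => ?_)
  have := (hV k).mul ((hV i).pderiv (i := k))
  have e : d + (d - 1) = 2 * d - 1 := by omega
  rwa [e] at this

lemma infl_hom {d : ℕ} (hd : 1 ≤ d) {V : Fin 3 → R3} (hV : ∀ i, (V i).IsHomogeneous d) :
    (infl V).IsHomogeneous (3 * d) := by
  have h : ∀ i j k : Fin 3, (X i * (V j * drv V (V k) - V k * drv V (V j)) : R3).IsHomogeneous (3 * d) := by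
    intro i j k
    have h1 := (hV j).mul (drv_hom hd hV k)
    have h2 := (hV k).mul (drv_hom hd hV j)
    have h3 := (isHomogeneous_X ℂ i).mul (h1.sub h2)
    have e : 1 + (d + (2 * d - 1)) = 3 * d := by omega
    rwa [e] at h3
  rw [infl_eq]
  exact ((h 0 1 2).sub (h 1 0 2)).add (h 2 0 1)

/-- `infl V` divides `E` as soon as each power of a linear form which divides `infl V` divides `E`. -/
lemma infl_dvd {d : ℕ} {V : Fin 3 → R3} (hV : Cv d V) {E : R3}
    (h : ∀ a, IL V a → ∀ n, lin a ^ n ∣ infl V → lin a ^ n ∣ E) : infl V ∣ E := by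
  rw [UniqueFactorizationMonoid.dvd_iff_emultiplicity_le hV.ne]
  intro p hp
  by_cases hpI : p ∣ infl V
  · obtain ⟨a, ha, h1, -⟩ := hV.irr hp.irreducible hpI
    rw [emultiplicity_le_emultiplicity_iff]
    intro n hn
    have h2 : Associated (p ^ n) (lin a ^ n) := h1.pow_pow
    exact h2.dvd.trans (h a ha n (h2.symm.dvd.trans hn))
  · rw [emultiplicity_eq_zero.2 hpI]; exact zero_le

/-- Anything of degree at most `2 d + 1` divisible by `infl V` vanishes. -/
lemma zero_of_dvd {d : ℕ} (hd : 2 ≤ d) {V : Fin 3 → R3} (hV : Cv d V) {E : R3}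
    (hE : E.totalDegree ≤ 2 * d + 1) (h : infl V ∣ E) : E = 0 := by
  by_contra h0
  obtain ⟨g, rfl⟩ := h
  have hg : g ≠ 0 := by rintro rfl; exact h0 (mul_zero _)
  rw [totalDegree_mul_of_isDomain hV.ne hg,
    (infl_hom (by omega) hV.hom).totalDegree hV.ne] at hE
  omega

/-- A divisor of all the minors of positive degree gives a contradiction. -/
lemma Cv.not_hom {d : ℕ} {V : Fin 3 → R3} (hV : Cv d V) {f : R3} {n : ℕ} (hn : 0 < n)
    (hf : f.IsHomogeneous n) (h0 : f ∣ V 1 * X 2 - V 2 * X 1) (h1 : f ∣ V 2 * X 0 - V 0 * X 2)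
    (h2 : f ∣ V 0 * X 1 - V 1 * X 0) : False := by
  have hu := hV.cop f h0 h1 h2
  have hf0 : f ≠ 0 := hu.ne_zero
  have h3 := hf.totalDegree hf0
  rw [isUnit_iff_totalDegree_of_isReduced] at hu
  omega

lemma pderiv_eq_zero_vars {σ : Type*} {i : σ} {f : MvPolynomial σ ℂ} (h : pderiv i f = 0) :
    i ∉ f.vars := by
  classical
  rw [mem_vars_iff_mem_support]
  rintro ⟨m, hm, hi⟩
  have h1 : coeff (m - Finsupp.single i 1) (pderiv i f) = 0 := by rw [h, coeff_zero]
  rw [mem_support_iff] at hm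
  rw [Finsupp.mem_support_iff] at hi
  have hle : Finsupp.single i 1 ≤ m := by rw [Finsupp.single_le_iff]; omega
  rw [coeff_pderiv, tsub_add_cancel_of_le hle] at h1
  rcases mul_eq_zero.1 h1 with h2 | h2
  · exact hm h2
  · exact Nat.cast_add_one_ne_zero _ h2

end Pool.Agent.W510.Cvx
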