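import Pool.Agent.W510.Cvx.Perp

set_option autoImplicit false
open MvPolynomial

namespace Pool.Agent.W510.Cvx

/-- determinant of the rows `X`, `A`, `B` -/
noncomputable def det3 (A B : Fin 3 → R3) : R3 :=
  X 0 * (A 1 * B 2 - A 2 * B 1) - X 1 * (A 0 * B 2 - A 2 * B 0) + X 2 * (A 0 * B 1 - A 1 * B 0)

lemma det3_dvd {L : Fin 3 → ℂ} (hL : L ≠ 0) {A B : Fin 3 → R3}
    (hA : C (L 0) * A 0 + C (L 1) * A 1 + C (L 2) * A 2 = 0)
    (hB : C (L 0) * B 0 + C (L 1) * B 1 + C (L 2) * B 2 = 0) : lin L ∣ det3 A B := by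
  obtain ⟨i, hi⟩ : ∃ i, L i ≠ 0 := by
    by_contra hh; push Not at hh; exact hL (funext hh)
  have hu : IsUnit (C (L i) : R3) := (isUnit_iff_ne_zero.2 hi).map C
  rw [← hu.dvd_mul_left]
  have key : ∀ j : Fin 3, ∃ c : R3, C (L j) * det3 A B = lin L * c := by
    intro j
    fin_cases j
    · refine ⟨A 1 * B 2 - A 2 * B 1, ?_⟩
      simp only [det3, lin_eq, Fin.zero_eta]
      linear_combination (-(X 1) * B 2 + X 2 * B 1) * hA + (X 1 * A 2 - X 2 * A 1) * hB
    · refine ⟨A 2 * B 0 - A 0 * B 2, ?_⟩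
      simp only [det3, lin_eq, Fin.mk_one]
      linear_combination (X 0 * B 2 - X 2 * B 0) * hA + (-(X 0) * A 2 + X 2 * A 0) * hB
    · refine ⟨A 0 * B 1 - A 1 * B 0, ?_⟩
      simp only [det3, lin_eq, Fin.reduceFinMk]
      linear_combination (-(X 0) * B 1 + X 1 * B 0) * hA + (X 0 * A 1 - X 1 * A 0) * hB
  obtain ⟨c, hc⟩ := key i
  exact ⟨c, hc⟩

/-- `[W, V]` for `W = X 2 ∂_2`. -/
noncomputable def YW (V : Fin 3 → R3) : Fin 3 → R3 :=
  fun i => X 2 * pderiv 2 (V i) - (if i = 2 then V 2 else 0)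

noncomputable def EW (V : Fin 3 → R3) : R3 := det3 V (YW V)

lemma pd2_lin (L : Fin 3 → ℂ) : pderiv 2 (lin L) = C (L 2) := by
  simp [lin_eq, pderiv_X]

lemma EW_dvd {V : Fin 3 → R3} {h f u : R3} {p w L : Fin 3 → ℂ} {m : ℕ}
    (hV : ∀ i, V i = h * X i + f * C (p i) + lin L ^ m * u * C (w i))
    (hp : dot L p = 0) (hw : dot L w = 0) (hL : L ≠ 0)
    (hLW : L 2 = 0 ∨ (L 0 = 0 ∧ L 1 = 0)) (hpW : p 2 = 0 ∨ (p 0 = 0 ∧ p 1 = 0)) :
    lin L ^ (m + 1) ∣ EW V := by
  have hpc : C (L 0) * C (p 0) + C (L 1) * C (p 1) + C (L 2) * C (p 2) = (0 : R3) := by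
    rw [← C_mul, ← C_mul, ← C_mul, ← C_add, ← C_add]
    have : L 0 * p 0 + L 1 * p 1 + L 2 * p 2 = 0 := hp
    rw [this, C_0]
  have hwc : C (L 0) * C (w 0) + C (L 1) * C (w 1) + C (L 2) * C (w 2) = (0 : R3) := by
    rw [← C_mul, ← C_mul, ← C_mul, ← C_add, ← C_add]
    have : L 0 * w 0 + L 1 * w 1 + L 2 * w 2 = 0 := hw
    rw [this, C_0]
  -- derivative of `f p`
  obtain ⟨g, hg⟩ : ∃ g : R3, ∀ i : Fin 3, X 2 * pderiv 2 f * C (p i) -
      (if i = 2 then f * C (p 2) else 0) = g * C (p i) := by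
    rcases hpW with h0 | ⟨h0, h1⟩
    · refine ⟨X 2 * pderiv 2 f, fun i => ?_⟩
      rw [h0]; simp
    · refine ⟨X 2 * pderiv 2 f - f, fun i => ?_⟩
      fin_cases i
      · simp [h0]
      · simp [h1]
      · simp; ring
  obtain ⟨U, hU, hUL⟩ : ∃ U : Fin 3 → R3, (∀ i : Fin 3, X 2 * pderiv 2 (lin L ^ m * u) * C (w i) -
      (if i = 2 then lin L ^ m * u * C (w 2) else 0) = lin L ^ m * U i) ∧
      C (L 0) * U 0 + C (L 1) * U 1 + C (L 2) * U 2 = 0 := by
    rcases hLW with h0 | ⟨h0, h1⟩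
    · refine ⟨fun i => X 2 * pderiv 2 u * C (w i) - (if i = 2 then u * C (w 2) else 0),
        fun i => ?_, ?_⟩
      · have : pderiv 2 (lin L ^ m * u) = lin L ^ m * pderiv 2 u := by
          rw [Derivation.leibniz, Derivation.leibniz_pow, pd2_lin, h0]
          simp
        rw [this]
        by_cases hi : i = 2
        · simp only [hi, if_true]; ring
        · simp only [hi, if_false]; ring
      · rw [h0, C_0, zero_mul, add_zero]
        rw [h0, C_0, zero_mul, add_zero] at hwc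
        simp only [Fin.isValue, Fin.reduceEq, if_false, sub_zero]
        linear_combination (X 2 * pderiv 2 u) * hwc
    · have hL2 : L 2 ≠ 0 := by
        intro h2; apply hL; funext i; fin_cases i <;> simp [h0, h1, h2]
      have hw2 : w 2 = 0 := by
        have : L 0 * w 0 + L 1 * w 1 + L 2 * w 2 = 0 := hw
        rw [h0, h1] at this
        simpa [hL2] using this
      have hLX : lin L = C (L 2) * X 2 := by rw [lin_eq, h0, h1]; simp
      refine ⟨fun i => (C (m : ℂ) * u + X 2 * pderiv 2 u) * C (w i), fun i => ?_, ?_⟩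
      · have : X 2 * pderiv 2 (lin L ^ m * u) = lin L ^ m * (C (m : ℂ) * u + X 2 * pderiv 2 u) := by
          rw [Derivation.leibniz, Derivation.leibniz_pow, pd2_lin]
          rcases m with _ | m
          · simp
          · simp only [smul_eq_mul, nsmul_eq_mul, Nat.add_sub_cancel, map_natCast]
            rw [pow_succ, hLX]
            push_cast
            ring
        rw [this, hw2]
        by_cases hi : i = 2
        · simp only [hi, if_true, hw2, C_0, mul_zero, sub_zero]
        · simp only [hi, if_false]; ring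
      · simp only
        linear_combination (C (m : ℂ) * u + X 2 * pderiv 2 u) * hwc
  have hY : ∀ i, YW V i = (X 2 * pderiv 2 h) * X i + g * C (p i) + lin L ^ m * U i := by
    intro i
    rw [← hg i, ← hU i]
    simp only [YW]
    have e : pderiv 2 (V i) = pderiv 2 h * X i + h * (if i = 2 then 1 else 0) + pderiv 2 f * C (p i) +
        pderiv 2 (lin L ^ m * u) * C (w i) := by
      rw [hV i]
      generalize lin L ^ m * u = F
      simp only [map_add, Derivation.leibniz, pderiv_C, pderiv_X, smul_eq_mul, mul_zero, zero_add]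
      by_cases hi : i = 2
      · subst hi; simp; ring
      · rw [if_neg hi, Pi.single_eq_of_ne (by exact fun h => hi h)]; ring
    rw [e]
    by_cases hi : i = 2
    · subst hi
      rw [if_pos rfl, if_pos rfl, if_pos rfl, if_pos rfl, hV 2]; ring
    · rw [if_neg hi, if_neg hi, if_neg hi, if_neg hi]; ring
  obtain ⟨q1, hq1⟩ := det3_dvd (A := fun i => C (p i)) (B := U) hL hpc hUL
  obtain ⟨q2, hq2⟩ := det3_dvd (A := fun i => C (w i)) (B := fun i => C (p i)) hL hwc hpc
  obtain ⟨q3, hq3⟩ := det3_dvd (A := fun i => C (w i)) (B := U) hL hwc hUL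
  refine ⟨f * q1 + u * g * q2 + lin L ^ m * u * q3, ?_⟩
  have : EW V = lin L ^ m * (f * det3 (fun i => C (p i)) U + u * g * det3 (fun i => C (w i)) (fun i => C (p i))
      + lin L ^ m * u * det3 (fun i => C (w i)) U) := by
    simp only [EW, det3]
    rw [hY 0, hY 1, hY 2, hV 0, hV 1, hV 2]
    ring
  rw [this, hq1, hq2, hq3, pow_succ]
  ring

/-- A field tangent to the line `L` has a decomposition along two spanning points. -/
lemma tangent_decomp {V : Fin 3 → R3} {L p w : Fin 3 → ℂ} (hL : L ≠ 0)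
    (hp : dot L p = 0) (hw : dot L w = 0) (hpw : Ind p w)
    (hV : lin L ∣ ∑ i : Fin 3, C (L i) * V i) :
    ∃ h f u : R3, ∀ i, V i = h * X i + f * C (p i) + lin L ^ 0 * u * C (w i) := by
  obtain ⟨h, hh⟩ := hV
  rw [Fin.sum_univ_three] at hh
  -- `V - h X` is orthogonal to `L`
  set A : Fin 3 → R3 := fun i => V i - h * X i with hA
  have hLA : C (L 0) * A 0 + C (L 1) * A 1 + C (L 2) * A 2 = 0 := by
    simp only [hA]
    rw [lin_eq] at hh
    linear_combination hh
  obtain ⟨c, hc⟩ := par_crs hpw hp hw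
  have hc0 : c ≠ 0 := by rintro rfl; apply hL; rw [hc, zero_smul]
  obtain ⟨j, hj⟩ : ∃ j, crs p w j ≠ 0 := by
    by_contra hh; push Not at hh; exact crs_ne hpw (funext hh)
  have hLA' : C (crs p w 0) * A 0 + C (crs p w 1) * A 1 + C (crs p w 2) * A 2 = 0 := by
    have : C c * (C (crs p w 0) * A 0 + C (crs p w 1) * A 1 + C (crs p w 2) * A 2) = 0 := by
      rw [hc] at hLA
      simp only [Pi.smul_apply, smul_eq_mul, C_mul] at hLA
      linear_combination hLA
    exact (mul_eq_zero.1 this).resolve_left (by simpa using hc0)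
  simp only [crs, Matrix.cons_val_zero, Matrix.cons_val_one, Matrix.cons_val_two,
    Matrix.head_cons, Matrix.tail_cons, C_sub, C_mul] at hLA'
  -- Cramer
  have key : ∀ j : Fin 3, crs p w j ≠ 0 → ∃ f u : R3, ∀ i, A i = f * C (p i) + u * C (w i) := by
    intro j hj
    have hinv : C (crs p w j)⁻¹ * C (crs p w j) = (1 : R3) := by
      rw [← C_mul, inv_mul_cancel₀ hj, C_1]
    fin_cases j
    · refine ⟨C (crs p w 0)⁻¹ * (A 1 * C (w 2) - A 2 * C (w 1)),
        C (crs p w 0)⁻¹ * (C (p 1) * A 2 - C (p 2) * A 1), fun i => ?_⟩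
      rw [← one_mul (A i), ← hinv]
      simp only [crs, Fin.zero_eta, Matrix.cons_val_zero, Matrix.cons_val_one, Matrix.cons_val_two,
        Matrix.head_cons, Matrix.tail_cons, C_sub, C_mul]
      fin_cases i <;> simp only [Fin.zero_eta, Fin.mk_one, Fin.reduceFinMk] <;> first
        | ring1
        | linear_combination (C (p 1 * w 2 - p 2 * w 1)⁻¹) * hLA'
    · refine ⟨C (crs p w 1)⁻¹ * (A 2 * C (w 0) - A 0 * C (w 2)),
        C (crs p w 1)⁻¹ * (C (p 2) * A 0 - C (p 0) * A 2), fun i => ?_⟩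
      rw [← one_mul (A i), ← hinv]
      simp only [crs, Fin.mk_one, Matrix.cons_val_zero, Matrix.cons_val_one, Matrix.cons_val_two,
        Matrix.head_cons, Matrix.tail_cons, C_sub, C_mul]
      fin_cases i <;> simp only [Fin.zero_eta, Fin.mk_one, Fin.reduceFinMk] <;> first
        | ring1
        | linear_combination (C (p 2 * w 0 - p 0 * w 2)⁻¹) * hLA'
    · refine ⟨C (crs p w 2)⁻¹ * (A 0 * C (w 1) - A 1 * C (w 0)),
        C (crs p w 2)⁻¹ * (C (p 0) * A 1 - C (p 1) * A 0), fun i => ?_⟩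
      rw [← one_mul (A i), ← hinv]
      simp only [Fin.reduceFinMk, crs, Matrix.cons_val_two, Matrix.head_cons, Matrix.tail_cons,
        C_sub, C_mul]
      fin_cases i <;> simp only [Fin.zero_eta, Fin.mk_one, Fin.reduceFinMk] <;> first
        | ring1
        | linear_combination (C (p 0 * w 1 - p 1 * w 0)⁻¹) * hLA'
  obtain ⟨f, u, hfu⟩ := key j hj
  refine ⟨h, f, u, fun i => ?_⟩
  have := hfu i
  simp only [hA] at this
  rw [pow_zero, one_mul]
  linear_combination this

end Pool.Agent.W510.Cvx
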