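import Pool.Agent.W510.Cvx.Basic

set_option autoImplicit false
open MvPolynomial

namespace Pool.Agent.W510.Cvx

lemma eval_vec3 (s : ℂ) (f : R3) : (r0 f).eval s = eval ![s, 0, 1] f := by
  have : ((Polynomial.evalRingHom s).comp (r0 : R3 →ₐ[ℂ] Polynomial ℂ).toRingHom) = eval ![s, 0, 1] := by
    apply MvPolynomial.ringHom_ext
    · intro c; simp [r0]
    · intro i; fin_cases i <;> simp [r0]
  exact congrArg (fun φ => φ f) this

lemma X_dvd_of_support {i : Fin 3} {f : R3} (h : ∀ m, m i = 0 → coeff m f = 0) : X i ∣ f := by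
  rw [X_dvd_iff_modMonomial_eq_zero]
  ext m
  rw [coeff_zero]
  by_cases hm : Finsupp.single i 1 ≤ m
  · exact coeff_modMonomial_of_le _ hm
  · rw [coeff_modMonomial_of_not_le _ hm]
    apply h
    by_contra h0
    exact hm (by rw [Finsupp.single_le_iff]; omega)

/-- coefficients of the restriction to `y = 0`, `z = 1`. -/
lemma coeff_r0 {d : ℕ} {f : R3} (hf : f.IsHomogeneous d) (j : ℕ) :
    (r0 f).coeff j = coeff (Finsupp.single 0 j + Finsupp.single 2 (d - j)) f := by
  classical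
  rw [r0, aeval_def, eval₂_eq', Polynomial.finsetSum_coeff]
  have key : ∀ m ∈ f.support, ((algebraMap ℂ (Polynomial ℂ)) (coeff m f) *
      ∏ i : Fin 3, (![(Polynomial.X : Polynomial ℂ), 0, 1] : Fin 3 → Polynomial ℂ) i ^ m i).coeff j =
      if m = Finsupp.single 0 j + Finsupp.single 2 (d - j) then coeff m f else 0 := by
    intro m hm
    have hd : m 0 + m 1 + m 2 = d := by
      have := hf (mem_support_iff.1 hm)
      rw [Finsupp.weight_apply, Finsupp.sum_fintype] at this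
      · simpa [Fin.sum_univ_three] using this
      · simp
    rw [Fin.prod_univ_three]
    simp only [Matrix.cons_val_zero, Matrix.cons_val_one, Matrix.cons_val_two, Matrix.head_cons,
      Matrix.tail_cons, one_pow, mul_one]
    rw [Polynomial.algebraMap_eq, Polynomial.coeff_C_mul]
    by_cases h1 : m 1 = 0
    · rw [h1, pow_zero, mul_one, Polynomial.coeff_X_pow]
      by_cases h0 : j = m 0
      · rw [if_pos h0, if_pos, mul_one]
        ext i; fin_cases i <;> simp <;> omega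
      · rw [if_neg h0, if_neg, mul_zero]
        rintro rfl
        apply h0; simp
    · rw [zero_pow h1, mul_zero, Polynomial.coeff_zero, mul_zero, if_neg]
      rintro rfl
      apply h1; simp
  rw [Finset.sum_congr rfl key, Finset.sum_ite_eq']
  split_ifs with h
  · rfl
  · exact (notMem_support_iff.1 h).symm

lemma X1_dvd_of_r0 {d : ℕ} {f : R3} (hf : f.IsHomogeneous d) (h : r0 f = 0) : X 1 ∣ f := by
  apply X_dvd_of_support
  intro m hm
  by_contra h0
  have hd : m 0 + m 1 + m 2 = d := by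
    have := hf h0
    rw [Finsupp.weight_apply, Finsupp.sum_fintype] at this
    · simpa [Fin.sum_univ_three] using this
    · simp
  have h1 := coeff_r0 hf (m 0)
  rw [h, Polynomial.coeff_zero] at h1
  apply h0
  rw [h1]
  congr 1
  ext i; fin_cases i <;> simp <;> omega

lemma isUnit_X_pow_aux (n : ℕ) : (X 1 : R3) ^ n ≠ 0 := pow_ne_zero _ (X_ne_zero 1)

lemma X1_eq_lin : (X 1 : R3) = lin ![0, 1, 0] := by simp [lin_eq]

/-- outside the zeros of `P` on `y = 0` the reduced inflection polynomial does not vanish. -/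
lemma NF.nonroot {d k n : ℕ} {P Q I' : R3} (h : NF d k P Q)
    (hI : infl ![P, 0, Q] = X 1 ^ n * I') (hI' : ¬ (X 1 : R3) ∣ I') (s : ℂ)
    (hs : ¬ (r0 P).IsRoot s) : (r0 I').eval s ≠ 0 := by
  intro h0
  rw [eval_vec3] at h0
  have hI0 : I' ≠ 0 := by rintro rfl; exact hI' (dvd_zero _)
  obtain ⟨t, ht, u, hu⟩ := WfDvdMonoid.exists_factors I' hI0
  rw [← hu, map_mul, mul_eq_zero] at h0
  have hu' : eval ![s, 0, 1] (u : R3) ≠ 0 := (u.isUnit.map (eval ![s, 0, 1])).ne_zero
  have h3 := h0.resolve_right hu'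
  rw [map_multiset_prod] at h3
  obtain ⟨p, hp, hp0⟩ := Multiset.mem_map.1 (Multiset.prod_eq_zero_iff.1 h3)
  have hpI' : p ∣ I' := (Multiset.dvd_prod hp).trans ⟨u, hu.symm⟩
  have hpI : p ∣ infl ![P, 0, Q] := hI ▸ (hpI'.trans (dvd_mul_left _ _))
  obtain ⟨a, ha, h1, h2⟩ := h.cv.irr (ht p hp) hpI
  have haq : dot a ![s, 0, 1] = 0 := by
    rw [← eval_lin]
    obtain ⟨g, hg⟩ := h1.dvd
    rw [hg, map_mul, hp0, zero_mul]
  have h4 := eval_zero_of_dvd h2 haq
  have hQ0 : eval ![s, 0, 1] Q = 0 := by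
    have : (X 1 : R3) ∣ Q := (dvd_pow_self _ (by have := h.two; omega)).trans h.hQ
    obtain ⟨g, rfl⟩ := this
    simp
  simp only [Fin.sum_univ_three, map_add, map_mul, eval_C, Matrix.cons_val_zero,
    Matrix.cons_val_one, Matrix.cons_val_two, Matrix.head_cons, Matrix.tail_cons,
    mul_zero, add_zero] at h4
  rw [hQ0, mul_zero, add_zero] at h4
  rcases mul_eq_zero.1 h4 with h5 | h5
  · have h6 : a 2 = 0 := by simpa [dot, h5] using haq
    apply hI'
    have : lin a = C (a 1) * X 1 := by rw [lin_eq, h5, h6]; simp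
    exact (Dvd.intro_left _ this.symm).trans (h1.symm.dvd.trans hpI')
  · apply hs
    rw [Polynomial.IsRoot, eval_vec3]; exact h5

lemma NF.root_of_IL {d k : ℕ} {P Q : R3} (h : NF d k P Q) {a : Fin 3 → ℂ}
    (ha : IL ![P, 0, Q] a) (ha0 : a 0 ≠ 0) : (r0 P).IsRoot (-a 2 / a 0) := by
  have haq : dot a ![-a 2 / a 0, 0, 1] = 0 := by
    simp [dot]; field_simp; ring
  have h4 := eval_zero_of_dvd (ha.inv h.cv) haq
  have hQ0 : eval ![-a 2 / a 0, 0, 1] Q = 0 := by
    have : (X 1 : R3) ∣ Q := (dvd_pow_self _ (by have := h.two; omega)).trans h.hQ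
    obtain ⟨g, rfl⟩ := this
    simp
  simp only [Fin.sum_univ_three, map_add, map_mul, eval_C, Matrix.cons_val_zero,
    Matrix.cons_val_one, Matrix.cons_val_two, Matrix.head_cons, Matrix.tail_cons,
    mul_zero, add_zero] at h4
  rw [hQ0, mul_zero, add_zero] at h4
  rw [Polynomial.IsRoot, eval_vec3]
  exact (mul_eq_zero.1 h4).resolve_left ha0

theorem NF_B (hE : S_exp) (hB : S_nobad) (hN : S_countN) (hC : S_countC) {d k : ℕ} {P Q : R3}
    (hd : 2 ≤ d) (h : NF d k P Q) :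
    ∃ γ : ℂ, (∀ a, IL ![P, 0, Q] a → a 0 = 0 ∨ a 0 * γ + a 2 = 0) ∧
      (¬ (X 1 : R3) ^ (k + 1) ∣ infl ![P, 0, Q] ∨ ∀ a, IL ![P, 0, Q] a → a 0 = 0) := by
  have hfin : FiniteMultiplicity (X 1 : R3) (infl ![P, 0, Q]) :=
    FiniteMultiplicity.of_not_isUnit X_prime.not_isUnit h.cv.ne
  obtain ⟨I', hI, hI'⟩ := hfin.exists_eq_pow_mul_and_not_dvd
  set n := multiplicity (X 1 : R3) (infl ![P, 0, Q]) with hn
  obtain ⟨F, A, g, hx⟩ := hE d k n P Q I' hd h hI hI'
  obtain ⟨hb1, hb2⟩ := hB d k n P Q I' F A g hd h hI hI' hx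
  have hW : ∀ s, ¬ (r0 P).IsRoot s →
      (r0 P * Polynomial.derivative A - A * Polynomial.derivative (r0 P)).eval s ≠ 0 := by
    intro s hs h0
    apply h.nonroot hI hI' s hs
    rw [hx.wron, Polynomial.eval_neg, Polynomial.eval_mul, h0, mul_zero, neg_zero]
  have hI0 : r0 I' ≠ 0 := by
    by_contra h0
    obtain ⟨s, hs⟩ : ∃ s, ¬ (r0 P).IsRoot s := by
      by_contra hh
      push Not at hh
      have hP0 : r0 P = 0 := Polynomial.funext (fun s => by simpa using hh s)
      exact h.hP (X1_dvd_of_r0 (h.cv.hom 0) hP0)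
    exact h.nonroot hI hI' s hs (by rw [h0, Polynomial.eval_zero])
  have hP0 : r0 P ≠ 0 := by
    intro h0; apply hI0; rw [hx.wron, h0]; simp
  have hA0 : A ≠ 0 := by
    intro h0; apply hI0; rw [hx.wron, h0]; simp
  rcases hx.typ with ⟨hnk, hF, hdeg⟩ | ⟨hnk, hF, hdeg⟩
  · obtain ⟨h1, h2⟩ := hb1 hnk
    obtain ⟨γ, α, β, i, j, hij, hα, hβ, hA, hP⟩ := hN (r0 P) A hP0 hA0 h1 h2 hW
    refine ⟨γ, fun a ha => ?_, Or.inl ?_⟩
    · by_cases ha0 : a 0 = 0
      · exact Or.inl ha0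
      · right
        have hr := h.root_of_IL ha ha0
        rw [hP, Polynomial.IsRoot, Polynomial.eval_mul, Polynomial.eval_C, Polynomial.eval_pow,
          Polynomial.eval_sub, Polynomial.eval_X, Polynomial.eval_C] at hr
        have h4 : (-a 2 / a 0 - γ) ^ j = 0 := (mul_eq_zero.1 hr).resolve_left hβ
        have h5 : -a 2 / a 0 - γ = 0 := eq_zero_of_pow_eq_zero h4
        field_simp at h5
        linear_combination -h5
    · rw [← hnk]
      intro hdvd
      rw [hI, pow_succ] at hdvd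
      exact hI' ((mul_dvd_mul_iff_left (pow_ne_zero n (X_ne_zero 1))).1 hdvd)
  · obtain ⟨h1, h2⟩ := hb2 hnk
    obtain ⟨h3, -⟩ := hC (r0 P) A hP0 hA0 h1 h2 hW
    have h6 : ∀ a, IL ![P, 0, Q] a → a 0 = 0 := by
      intro a ha
      by_contra ha0
      have hr := h.root_of_IL ha ha0
      rw [Polynomial.natDegree_eq_zero] at h3
      obtain ⟨c, hc⟩ := h3
      rw [← hc, Polynomial.IsRoot, Polynomial.eval_C] at hr
      apply hP0; rw [← hc, hr, Polynomial.C_0]
    exact ⟨0, fun a ha => Or.inl (h6 a ha), Or.inr h6⟩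

end Pool.Agent.W510.Cvx
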