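import Pool.Agent.W510.Cvx.ThmB

set_option autoImplicit false
open MvPolynomial

namespace Pool.Agent.W510.Cvx

def crs (x y : Fin 3 → ℂ) : Fin 3 → ℂ :=
  ![x 1 * y 2 - x 2 * y 1, x 2 * y 0 - x 0 * y 2, x 0 * y 1 - x 1 * y 0]

lemma crs_ne {x y : Fin 3 → ℂ} (h : Ind x y) : crs x y ≠ 0 := by
  intro h0
  have h1 : x 1 * y 2 - x 2 * y 1 = 0 := by simpa [crs] using congrFun h0 0
  have h2 : x 2 * y 0 - x 0 * y 2 = 0 := by simpa [crs] using congrFun h0 1
  have h3 : x 0 * y 1 - x 1 * y 0 = 0 := by simpa [crs] using congrFun h0 2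
  have hx : x ≠ 0 := by
    rintro rfl
    have := h 1 0 (by simp)
    exact one_ne_zero this.1
  obtain ⟨i, hi⟩ : ∃ i, x i ≠ 0 := by
    by_contra hh; push Not at hh; exact hx (funext hh)
  have := h (y i) (-x i) (by
    funext j
    simp only [Pi.add_apply, Pi.smul_apply, smul_eq_mul, Pi.zero_apply]
    fin_cases i <;> fin_cases j <;> simp <;> first | ring1 | linear_combination h1 | linear_combination -h1 | linear_combination h2 | linear_combination -h2 | linear_combination h3 | linear_combination -h3)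
  exact hi (by simpa using this.2)

lemma par_crs {x y v : Fin 3 → ℂ} (h : Ind x y) (h1 : dot v x = 0) (h2 : dot v y = 0) :
    ∃ c : ℂ, v = c • crs x y := by
  obtain ⟨i, hi⟩ : ∃ i, crs x y i ≠ 0 := by
    by_contra hh; push Not at hh; exact crs_ne h (funext hh)
  refine ⟨v i / crs x y i, ?_⟩
  funext j
  simp only [Pi.smul_apply, smul_eq_mul]
  rw [div_mul_eq_mul_div, eq_div_iff hi]
  simp only [dot] at h1 h2
  fin_cases i <;> fin_cases j <;> simp [crs] <;> first
    | ring1
    | linear_combination (x 0) * h2 - (y 0) * h1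
    | linear_combination (x 1) * h2 - (y 1) * h1
    | linear_combination (x 2) * h2 - (y 2) * h1
    | linear_combination -(x 0) * h2 + (y 0) * h1
    | linear_combination -(x 1) * h2 + (y 1) * h1
    | linear_combination -(x 2) * h2 + (y 2) * h1

lemma perp {x y u v : Fin 3 → ℂ} (h : Ind x y) (hu : u ≠ 0) (h1 : dot u x = 0) (h2 : dot u y = 0)
    (h3 : dot v x = 0) (h4 : dot v y = 0) : ∃ c : ℂ, v = c • u := by
  obtain ⟨c, hc⟩ := par_crs h h1 h2
  obtain ⟨e, he⟩ := par_crs h h3 h4
  have hc0 : c ≠ 0 := by rintro rfl; apply hu; rw [hc, zero_smul]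
  exact ⟨e / c, by rw [he, hc, smul_smul, div_mul_cancel₀ _ hc0]⟩

lemma dot_comm (a p : Fin 3 → ℂ) : dot a p = dot p a := by simp only [dot]; ring

lemma dot_crs_left (x y : Fin 3 → ℂ) : dot (crs x y) x = 0 := by simp [dot, crs]; ring
lemma dot_crs_right (x y : Fin 3 → ℂ) : dot (crs x y) y = 0 := by simp [dot, crs]; ring

/-- not proportional nonzero vectors are independent -/
lemma ind_of {x y : Fin 3 → ℂ} (hx : x ≠ 0) (h : ¬ ∃ c : ℂ, y = c • x) : Ind x y := by
  intro c d hcd
  have hd : d = 0 := by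
    by_contra hd
    apply h
    refine ⟨-c / d, ?_⟩
    funext i
    have := congrFun hcd i
    simp only [Pi.add_apply, Pi.smul_apply, smul_eq_mul, Pi.zero_apply] at this ⊢
    field_simp
    linear_combination this
  subst hd
  refine ⟨?_, rfl⟩
  rw [zero_smul, add_zero] at hcd
  exact (smul_eq_zero.1 hcd).resolve_right hx

lemma Ind.left {x y : Fin 3 → ℂ} (h : Ind x y) : x ≠ 0 := by
  rintro rfl
  exact one_ne_zero (h 1 0 (by simp)).1

lemma Ind.right {x y : Fin 3 → ℂ} (h : Ind x y) : y ≠ 0 := by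
  rintro rfl
  exact one_ne_zero (h 0 1 (by simp)).2

lemma Ind.symm {x y : Fin 3 → ℂ} (h : Ind x y) : Ind y x := by
  intro c d hcd
  have := h d c (by rw [add_comm]; exact hcd)
  exact ⟨this.2, this.1⟩

/-- Not concurrent. -/
lemma three {a b c p r : Fin 3 → ℂ} (hab : Ind a b) (ha : dot a p = 0) (hb : dot b p = 0)
    (hp : p ≠ 0) (hc : dot c p ≠ 0) (hr : r ≠ 0) (h1 : dot a r = 0) (h2 : dot b r = 0) :
    dot c r ≠ 0 := by
  obtain ⟨e, he⟩ := perp (u := p) (v := r) hab hp (by rw [dot_comm]; exact ha)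
    (by rw [dot_comm]; exact hb) (by rw [dot_comm]; exact h1) (by rw [dot_comm]; exact h2)
  intro h3
  rw [he, dot_smul_right] at h3
  rcases mul_eq_zero.1 h3 with h4 | h4
  · apply hr; rw [he, h4, zero_smul]
  · exact hc h4

end Pool.Agent.W510.Cvx
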