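import Pool.Agent.W510.Cvx.NFB

set_option autoImplicit false
open MvPolynomial

namespace Pool.Agent.W510.Cvx

/-- `p` is the special point of the line `a`, with contact order at least `m + 1`. -/
def Sp (V : Fin 3 → R3) (a p : Fin 3 → ℂ) (m : ℕ) : Prop :=
  dot a p = 0 ∧ ∃ (h f u : R3) (w : Fin 3 → ℂ), dot a w = 0 ∧
    ∀ i, V i = h * X i + f * C (p i) + lin a ^ m * u * C (w i)

/-- `Sp` with degrees. -/
def SpD (d : ℕ) (V : Fin 3 → R3) (a p : Fin 3 → ℂ) (m : ℕ) : Prop :=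
  dot a p = 0 ∧ ∃ (h f u : R3) (w : Fin 3 → ℂ), dot a w = 0 ∧ f.IsHomogeneous d ∧
    (lin a ^ m * u).IsHomogeneous d ∧
    ∀ i, V i = h * X i + f * C (p i) + lin a ^ m * u * C (w i)

lemma SpD.toSp {d : ℕ} {V : Fin 3 → R3} {a p : Fin 3 → ℂ} {m : ℕ} (h : SpD d V a p m) :
    Sp V a p m := by
  obtain ⟨h1, r, f, u, w, h2, -, -, h3⟩ := h
  exact ⟨h1, r, f, u, w, h2, h3⟩

/-- independence of two vectors -/
def Ind (p q : Fin 3 → ℂ) : Prop := ∀ c d : ℂ, c • p + d • q = 0 → c = 0 ∧ d = 0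

/-- The conclusion of Theorem B at the nonreduced line `a`. -/
def TB (d : ℕ) (V : Fin 3 → R3) (a p q : Fin 3 → ℂ) : Prop :=
  dot a p = 0 ∧ dot a q = 0 ∧ Ind p q ∧ (∀ b, IL V b → dot b p = 0 ∨ dot b q = 0) ∧
  ∃ k, 2 ≤ k ∧ SpD d V a p (k - 1) ∧ (¬ lin a ^ (k + 1) ∣ infl V ∨ ∀ b, IL V b → dot b p = 0)

def vm (a : Fin 3 → ℂ) (M : Matrix (Fin 3) (Fin 3) ℂ) : Fin 3 → ℂ :=
  fun j => a 0 * M 0 j + a 1 * M 1 j + a 2 * M 2 j

def mv (M : Matrix (Fin 3) (Fin 3) ℂ) (p : Fin 3 → ℂ) : Fin 3 → ℂ :=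
  fun i => M i 0 * p 0 + M i 1 * p 1 + M i 2 * p 2

lemma dot_vm (a p : Fin 3 → ℂ) (M : Matrix (Fin 3) (Fin 3) ℂ) : dot (vm a M) p = dot a (mv M p) := by
  simp only [dot, vm, mv]; ring

lemma sub_X (M : Matrix (Fin 3) (Fin 3) ℂ) (i : Fin 3) :
    sub M (X i) = C (M i 0) * X 0 + C (M i 1) * X 1 + C (M i 2) * X 2 := by
  simp [sub, Fin.sum_univ_three]

lemma sub_C (M : Matrix (Fin 3) (Fin 3) ℂ) (c : ℂ) : sub M (C c) = C c := by
  simp [sub]

lemma sub_lin (M : Matrix (Fin 3) (Fin 3) ℂ) (a : Fin 3 → ℂ) : sub M (lin a) = lin (vm a M) := by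
  simp only [lin_eq, map_add, map_mul, sub_X, sub_C, vm]; ring

lemma one_sum (i : Fin 3) (Y : Fin 3 → R3) :
    C ((1 : Matrix (Fin 3) (Fin 3) ℂ) i 0) * Y 0 + C ((1 : Matrix (Fin 3) (Fin 3) ℂ) i 1) * Y 1 +
      C ((1 : Matrix (Fin 3) (Fin 3) ℂ) i 2) * Y 2 = Y i := by
  fin_cases i <;> simp [Matrix.one_apply]

lemma sub_sub {M N : Matrix (Fin 3) (Fin 3) ℂ} (h : M * N = 1) (f : R3) :
    sub N (sub M f) = f := by
  have : (sub N).comp (sub M) = AlgHom.id ℂ R3 := by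
    apply MvPolynomial.algHom_ext
    intro i
    rw [AlgHom.comp_apply, sub_X]
    simp only [map_add, map_mul, sub_X, sub_C, AlgHom.id_apply]
    have h0 : ∀ l, M i 0 * N 0 l + M i 1 * N 1 l + M i 2 * N 2 l = (1 : Matrix (Fin 3) (Fin 3) ℂ) i l := by
      intro l; rw [← h, Matrix.mul_apply, Fin.sum_univ_three]
    have e : ∀ l, C (M i 0) * C (N 0 l) + C (M i 1) * C (N 1 l) + C (M i 2) * C (N 2 l)
        = (C ((1 : Matrix (Fin 3) (Fin 3) ℂ) i l) : R3) := by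
      intro l; rw [← h0 l]; simp only [C_add, C_mul]
    calc C (M i 0) * (C (N 0 0) * X 0 + C (N 0 1) * X 1 + C (N 0 2) * X 2) +
          C (M i 1) * (C (N 1 0) * X 0 + C (N 1 1) * X 1 + C (N 1 2) * X 2) +
          C (M i 2) * (C (N 2 0) * X 0 + C (N 2 1) * X 1 + C (N 2 2) * X 2)
        = (C (M i 0) * C (N 0 0) + C (M i 1) * C (N 1 0) + C (M i 2) * C (N 2 0)) * X 0 +
          (C (M i 0) * C (N 0 1) + C (M i 1) * C (N 1 1) + C (M i 2) * C (N 2 1)) * X 1 +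
          (C (M i 0) * C (N 0 2) + C (M i 1) * C (N 1 2) + C (M i 2) * C (N 2 2)) * X 2 := by ring
      _ = (X i : R3) := by
          rw [e 0, e 1, e 2]
          exact one_sum i (fun j => X j)
  exact congrArg (fun φ => φ f) this

lemma sub_hom (M : Matrix (Fin 3) (Fin 3) ℂ) {f : R3} {n : ℕ} (hf : f.IsHomogeneous n) :
    (sub M f).IsHomogeneous n := by
  have h : ∀ k : Fin 3, (∑ j : Fin 3, (C (M k j) * X j : R3)).IsHomogeneous 1 := by
    intro k
    refine IsHomogeneous.sum _ _ _ (fun i _ => ?_)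
    simpa using (isHomogeneous_C _ (M k i)).mul (isHomogeneous_X ℂ i)
  have := hf.aeval _ h
  rwa [one_mul] at this

/-- `V` is recovered from its form in new coordinates. -/
lemma act_inv {M N : Matrix (Fin 3) (Fin 3) ℂ} (h : M * N = 1) (V W : Fin 3 → R3) (r : R3)
    (hW : ∀ i, act M N V i + r * X i = W i) (i : Fin 3) :
    V i = -(sub N r) * X i + sub N (W 0) * C (M i 0) + sub N (W 1) * C (M i 1) +
      sub N (W 2) * C (M i 2) := by
  have hN : N * M = 1 := mul_eq_one_comm.1 h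
  have e : ∀ l, C (M i 0) * C (N 0 l) + C (M i 1) * C (N 1 l) + C (M i 2) * C (N 2 l)
        = (C ((1 : Matrix (Fin 3) (Fin 3) ℂ) i l) : R3) := by
    intro l; rw [← h, Matrix.mul_apply, Fin.sum_univ_three]; simp only [C_add, C_mul]
  have h1 : C (M i 0) * act M N V 0 + C (M i 1) * act M N V 1 + C (M i 2) * act M N V 2 =
      sub M (V i) := by
    simp only [act, Fin.sum_univ_three]
    calc _ = (C (M i 0) * C (N 0 0) + C (M i 1) * C (N 1 0) + C (M i 2) * C (N 2 0)) * sub M (V 0) +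
          (C (M i 0) * C (N 0 1) + C (M i 1) * C (N 1 1) + C (M i 2) * C (N 2 1)) * sub M (V 1) +
          (C (M i 0) * C (N 0 2) + C (M i 1) * C (N 1 2) + C (M i 2) * C (N 2 2)) * sub M (V 2) := by
            ring
      _ = sub M (V i) := by
          rw [e 0, e 1, e 2]
          exact one_sum i (fun j => sub M (V j))
  have h2 : sub M (V i) = C (M i 0) * W 0 + C (M i 1) * W 1 + C (M i 2) * W 2 -
      r * sub M (X i) := by
    rw [← h1, ← hW 0, ← hW 1, ← hW 2, sub_X]; ring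
  have h3 := congrArg (sub N) h2
  rw [sub_sub h] at h3
  rw [h3]
  simp only [map_sub, map_add, map_mul, sub_C, sub_sub h]
  ring

lemma IL_vm {V W : Fin 3 → R3} {M N : Matrix (Fin 3) (Fin 3) ℂ} (h : M * N = 1) {c : R3}
    (hI : infl W = c * sub M (infl V)) {b : Fin 3 → ℂ} (hb : IL V b) : IL W (vm b M) := by
  refine ⟨?_, ?_⟩
  · intro h0
    apply lin_ne hb.1
    rw [← sub_sub h (lin b), sub_lin, h0]
    simp [lin]
  · rw [hI, ← sub_lin]
    obtain ⟨g, hg⟩ := hb.2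
    rw [hg, map_mul]
    exact Dvd.intro_left (c * sub M g) (by ring)

lemma infl_norm (h1 : S_act) (h3 : S_rad) {d : ℕ} (hd : 1 ≤ d) {V W : Fin 3 → R3}
    (hV : Cv d V) {M N : Matrix (Fin 3) (Fin 3) ℂ} (h2 : S_actC) (h : M * N = 1) {r : R3}
    (hr : r.IsHomogeneous (d - 1)) (hW : ∀ i, act M N V i + r * X i = W i) :
    infl W = C N.det * sub M (infl V) ∧ Cv d W := by
  have hA := h2 d M N V h hV
  obtain ⟨h4, h5⟩ := h3 d r (act M N V) hd hr hA.hom
  have : W = fun i => act M N V i + r * X i := by funext i; exact (hW i).symm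
  rw [this]
  exact ⟨h4.trans (h1 M N V h), h5 hA⟩

/-- Theorem B. -/
theorem thmB (h1 : S_act) (h2 : S_actC) (h3 : S_rad) (h4 : S_norm) (hE : S_exp) (hB : S_nobad)
    (hN : S_countN) (hC : S_countC) {d : ℕ} (hd : 2 ≤ d) {V : Fin 3 → R3} (hV : Cv d V)
    {a : Fin 3 → ℂ} (ha : NR V a) : ∃ p q, TB d V a p q := by
  obtain ⟨M, N, r, P, Q, k, hMN, hr, hact, hNF, ha1⟩ := h4 d V a hd hV ha
  obtain ⟨hI, -⟩ := infl_norm h1 h3 (by omega) hV h2 hMN hr hact
  obtain ⟨γ, hγ, hγ2⟩ := NF_B hE hB hN hC hd hNF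
  have hNM : N * M = 1 := mul_eq_one_comm.1 hMN
  have hvm : vm a M = ![0, 1, 0] := by
    apply lin_inj; rw [← sub_lin, ha1, X1_eq_lin]
  have hal : lin a = sub N (X 1) := by rw [← ha1, sub_sub hMN]
  have hdet : IsUnit (C N.det : R3) := by
    apply IsUnit.map C
    rw [← Matrix.isUnit_iff_isUnit_det]
    exact ⟨⟨N, M, hNM, hMN⟩, rfl⟩
  have hIL : ∀ b, IL V b → IL ![P, 0, Q] (vm b M) := fun b hb => IL_vm hMN hI hb
  refine ⟨mv M ![1, 0, 0], mv M ![γ, 0, 1], ?_, ?_, ?_, ?_, k, hNF.two, ⟨?_, ?_⟩, ?_⟩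
  · rw [← dot_vm, hvm]; simp [dot]
  · rw [← dot_vm, hvm]; simp [dot]
  · intro c e hce
    have h5 : mv M (c • ![1, 0, 0] + e • ![γ, 0, 1]) = 0 := by
      rw [← hce]; funext i; simp [mv]; ring
    have h6 : c • ![(1 : ℂ), 0, 0] + e • ![γ, 0, 1] = 0 := by
      have : mv N (mv M (c • ![(1 : ℂ), 0, 0] + e • ![γ, 0, 1])) = c • ![(1 : ℂ), 0, 0] + e • ![γ, 0, 1] := by
        have e1 : ∀ v, mv N (mv M v) = v := by
          intro v
          funext i
          have := congrFun (congrArg (fun A => Matrix.mulVec A v) hNM) i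
          rw [Matrix.one_mulVec] at this
          rw [← this, ← Matrix.mulVec_mulVec]
          simp [mv, Matrix.mulVec, dotProduct, Fin.sum_univ_three]
        exact e1 _
      rw [← this, h5]; funext i; simp [mv]
    have h7 := congrFun h6 0
    have h8 := congrFun h6 2
    simp at h7 h8
    subst h8
    simp at h7
    exact ⟨h7, rfl⟩
  · intro b hb
    rw [← dot_vm, ← dot_vm]
    rcases hγ _ (hIL b hb) with h5 | h5
    · left; simpa [dot] using h5
    · right; simpa [dot] using h5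
  · rw [← dot_vm, hvm]; simp [dot]
  · obtain ⟨Q', hQ'⟩ := hNF.hQ
    refine ⟨-(sub N r), sub N P, sub N Q', mv M ![0, 0, 1], ?_, ?_, ?_, ?_⟩
    · rw [← dot_vm, hvm]; simp [dot]
    · exact sub_hom N (hNF.cv.hom 0)
    · have : lin a ^ (k - 1) * sub N Q' = sub N Q := by rw [hQ', map_mul, map_pow, ← hal]
      rw [this]
      exact sub_hom N (hNF.cv.hom 2)
    · intro i
      rw [act_inv hMN V ![P, 0, Q] r hact i]
      simp only [Matrix.cons_val_zero, Matrix.cons_val_one, Matrix.cons_val_two, Matrix.head_cons,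
        Matrix.tail_cons, map_zero, zero_mul, add_zero, mv]
      rw [hQ', map_mul, map_pow, ← hal]
      simp
  · rcases hγ2 with h5 | h5
    · left
      intro h6
      apply h5
      have h7 := map_dvd (sub M) h6
      rw [map_pow, ha1] at h7
      rw [hI]
      exact h7.mul_left _
    · right
      intro b hb
      rw [← dot_vm]
      simpa [dot] using h5 _ (hIL b hb)

end Pool.Agent.W510.Cvx
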