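import Pool.Agent.W510.Cvx.Deg

set_option autoImplicit false
open MvPolynomial

namespace Pool.Agent.W510.Cvx

lemma mv_one (p : Fin 3 → ℂ) : mv 1 p = p := by
  funext i; fin_cases i <;> simp [mv, Matrix.one_apply]

lemma mv_mv (M N : Matrix (Fin 3) (Fin 3) ℂ) (p : Fin 3 → ℂ) : mv M (mv N p) = mv (M * N) p := by
  funext i; simp only [mv, Matrix.mul_apply, Fin.sum_univ_three]; ring

lemma mv_inv {M N : Matrix (Fin 3) (Fin 3) ℂ} (h : M * N = 1) (p : Fin 3 → ℂ) :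
    mv M (mv N p) = p := by rw [mv_mv, h, mv_one]

lemma vm_one (a : Fin 3 → ℂ) : vm a 1 = a := by
  funext i; fin_cases i <;> simp [vm, Matrix.one_apply]

lemma vm_vm (M N : Matrix (Fin 3) (Fin 3) ℂ) (a : Fin 3 → ℂ) : vm (vm a M) N = vm a (M * N) := by
  funext i; simp only [vm, Matrix.mul_apply, Fin.sum_univ_three]; ring

lemma vm_inv {M N : Matrix (Fin 3) (Fin 3) ℂ} (h : M * N = 1) (a : Fin 3 → ℂ) :
    vm (vm a M) N = a := by rw [vm_vm, h, vm_one]

lemma mv_smul (M : Matrix (Fin 3) (Fin 3) ℂ) (c : ℂ) (p : Fin 3 → ℂ) : mv M (c • p) = c • mv M p := by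
  funext i; simp only [mv, Pi.smul_apply, smul_eq_mul]; ring

lemma vm_smul (M : Matrix (Fin 3) (Fin 3) ℂ) (c : ℂ) (a : Fin 3 → ℂ) : vm (c • a) M = c • vm a M := by
  funext i; simp only [vm, Pi.smul_apply, smul_eq_mul]; ring

/-- The matrix with the given columns. -/
def colM (c0 c1 c2 : Fin 3 → ℂ) : Matrix (Fin 3) (Fin 3) ℂ :=
  Matrix.of ![![c0 0, c1 0, c2 0], ![c0 1, c1 1, c2 1], ![c0 2, c1 2, c2 2]]

lemma colM_det (c0 c1 c2 : Fin 3 → ℂ) : (colM c0 c1 c2).det = dot (crs c0 c1) c2 := by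
  simp [colM, Matrix.det_fin_three, dot, crs]; ring

lemma vm_colM (a c0 c1 c2 : Fin 3 → ℂ) : vm a (colM c0 c1 c2) = ![dot a c0, dot a c1, dot a c2] := by
  funext i; fin_cases i <;> simp [vm, colM, dot]

lemma mv_colM (p c0 c1 c2 : Fin 3 → ℂ) :
    mv (colM c0 c1 c2) p = p 0 • c0 + p 1 • c1 + p 2 • c2 := by
  funext i; fin_cases i <;> simp [mv, colM] <;> ring

lemma exists_inv {c0 c1 c2 : Fin 3 → ℂ} (h : dot (crs c0 c1) c2 ≠ 0) :
    ∃ N, colM c0 c1 c2 * N = 1 := by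
  refine ⟨(colM c0 c1 c2)⁻¹, Matrix.mul_nonsing_inv _ ?_⟩
  rw [colM_det]; exact isUnit_iff_ne_zero.2 h

/-- `V` in new coordinates. -/
lemma sub_V {M N : Matrix (Fin 3) (Fin 3) ℂ} (h : M * N = 1) (V W : Fin 3 → R3) (r : R3)
    (hW : ∀ i, act M N V i + r * X i = W i) (i : Fin 3) :
    sub M (V i) = C (M i 0) * (W 0 - r * X 0) + C (M i 1) * (W 1 - r * X 1) +
      C (M i 2) * (W 2 - r * X 2) := by
  have e : ∀ l, C (M i 0) * C (N 0 l) + C (M i 1) * C (N 1 l) + C (M i 2) * C (N 2 l)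
        = (C ((1 : Matrix (Fin 3) (Fin 3) ℂ) i l) : R3) := by
    intro l; rw [← h, Matrix.mul_apply, Fin.sum_univ_three]; simp only [C_add, C_mul]
  have h1 : C (M i 0) * act M N V 0 + C (M i 1) * act M N V 1 + C (M i 2) * act M N V 2 =
      sub M (V i) := by
    simp only [act, Fin.sum_univ_three]
    calc _ = (C (M i 0) * C (N 0 0) + C (M i 1) * C (N 1 0) + C (M i 2) * C (N 2 0)) * sub M (V 0) +
          (C (M i 0) * C (N 0 1) + C (M i 1) * C (N 1 1) + C (M i 2) * C (N 2 1)) * sub M (V 1) +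
          (C (M i 0) * C (N 0 2) + C (M i 1) * C (N 1 2) + C (M i 2) * C (N 2 2)) * sub M (V 2) := by
            ring
      _ = sub M (V i) := by
          rw [e 0, e 1, e 2]
          exact one_sum i (fun j => sub M (V j))
  rw [← h1, ← hW 0, ← hW 1, ← hW 2]; ring

lemma sub_N_X {M N : Matrix (Fin 3) (Fin 3) ℂ} (h : N * M = 1) (i : Fin 3) :
    C (N i 0) * sub M (X 0) + C (N i 1) * sub M (X 1) + C (N i 2) * sub M (X 2) = (X i : R3) := by
  have e : ∀ l, C (N i 0) * C (M 0 l) + C (N i 1) * C (M 1 l) + C (N i 2) * C (M 2 l)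
        = (C ((1 : Matrix (Fin 3) (Fin 3) ℂ) i l) : R3) := by
    intro l; rw [← h, Matrix.mul_apply, Fin.sum_univ_three]; simp only [C_add, C_mul]
  rw [sub_X, sub_X, sub_X]
  calc _ = (C (N i 0) * C (M 0 0) + C (N i 1) * C (M 1 0) + C (N i 2) * C (M 2 0)) * X 0 +
          (C (N i 0) * C (M 0 1) + C (N i 1) * C (M 1 1) + C (N i 2) * C (M 2 1)) * X 1 +
          (C (N i 0) * C (M 0 2) + C (N i 1) * C (M 1 2) + C (N i 2) * C (M 2 2)) * X 2 := by ring
    _ = (X i : R3) := by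
        rw [e 0, e 1, e 2]
        exact one_sum i (fun j => X j)

/-- Transport of the special point. -/
lemma Sp.trans {M N : Matrix (Fin 3) (Fin 3) ℂ} (h : M * N = 1) {V W : Fin 3 → R3} {r : R3}
    (hW : ∀ i, act M N V i + r * X i = W i) {a p : Fin 3 → ℂ} {m : ℕ} (hS : Sp V a p m) :
    Sp W (vm a M) (mv N p) m := by
  have hN : N * M = 1 := mul_eq_one_comm.1 h
  obtain ⟨h1, g, f, u, w, h2, h3⟩ := hS
  refine ⟨by rw [dot_vm, mv_inv h]; exact h1, sub M g + r, sub M f, sub M u, mv N w,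
    by rw [dot_vm, mv_inv h]; exact h2, fun i => ?_⟩
  rw [← hW i]
  simp only [act, Fin.sum_univ_three]
  rw [h3 0, h3 1, h3 2]
  simp only [map_add, map_mul, map_pow, sub_C, sub_lin, mv, C_add, C_mul]
  have := sub_N_X hN i
  linear_combination (sub M g) * this

/-- Powers of inflection lines back in the old coordinates. -/
lemma pow_dvd_back {M N : Matrix (Fin 3) (Fin 3) ℂ} (h : M * N = 1) {V W : Fin 3 → R3}
    (hI : infl W = C N.det * sub M (infl V)) {b : Fin 3 → ℂ} {n : ℕ} (hb : lin b ^ n ∣ infl W) :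
    lin (vm b N) ^ n ∣ infl V := by
  have hu : IsUnit (C N.det : R3) := by
    apply IsUnit.map C
    rw [← Matrix.isUnit_iff_isUnit_det]
    exact ⟨⟨N, M, mul_eq_one_comm.1 h, h⟩, rfl⟩
  have h1 := map_dvd (sub N) hb
  rw [hI, map_mul, sub_C, sub_sub h, map_pow, sub_lin] at h1
  exact (hu.dvd_mul_left).1 h1

lemma vm_ne {M N : Matrix (Fin 3) (Fin 3) ℂ} (h : M * N = 1) {b : Fin 3 → ℂ} (hb : b ≠ 0) :
    vm b M ≠ 0 := by
  intro h0
  apply hb
  rw [← vm_inv h b, h0]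
  funext i; simp [vm]

lemma IL.back {M N : Matrix (Fin 3) (Fin 3) ℂ} (h : M * N = 1) {V W : Fin 3 → R3}
    (hI : infl W = C N.det * sub M (infl V)) {b : Fin 3 → ℂ} (hb : IL W b) : IL V (vm b N) := by
  refine ⟨vm_ne (mul_eq_one_comm.1 h) hb.1, ?_⟩
  have := pow_dvd_back (n := 1) h hI (by rw [pow_one]; exact hb.2)
  rwa [pow_one] at this

lemma pow_dvd_forth {M N : Matrix (Fin 3) (Fin 3) ℂ} {V W : Fin 3 → R3}
    (hI : infl W = C N.det * sub M (infl V)) {b : Fin 3 → ℂ} {n : ℕ} (hb : lin b ^ n ∣ infl V) :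
    lin (vm b M) ^ n ∣ infl W := by
  have h1 := map_dvd (sub M) hb
  rw [map_pow, sub_lin] at h1
  rw [hI]; exact h1.mul_left _

/-- Normal form with respect to an inflection line. -/
lemma norm2 (h1 : S_act) (h2 : S_actC) (h3 : S_rad) {d : ℕ} (hd : 1 ≤ d) {V : Fin 3 → R3}
    (hV : Cv d V) {M N : Matrix (Fin 3) (Fin 3) ℂ} (h : M * N = 1) {a : Fin 3 → ℂ}
    (ha : IL V a) (h0 : vm a M 0 = 0) (h0' : vm a M 1 = 0) :
    ∃ r P Q : R3, (∀ i, act M N V i + r * X i = (![P, Q, 0] : Fin 3 → R3) i) ∧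
      Cv d ![P, Q, 0] ∧ infl ![P, Q, 0] = C N.det * sub M (infl V) := by
  have hA := h2 d M N V h hV
  have hIL : IL (act M N V) (vm a M) := IL_vm h (h1 M N V h) ha
  have hinv := hIL.inv hA
  have h5 : vm a M 2 ≠ 0 := by
    intro h6
    apply hIL.1
    funext i; fin_cases i <;> simp [h0, h0', h6]
  have hu : IsUnit (C (vm a M 2) : R3) := (isUnit_iff_ne_zero.2 h5).map C
  rw [lin_eq, Fin.sum_univ_three, h0, h0'] at hinv
  simp only [C_0, zero_mul, zero_add] at hinv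
  have h6 : (X 2 : R3) ∣ act M N V 2 := by
    rw [← hu.dvd_mul_left]
    exact (hu.mul_left_dvd.1 hinv)
  obtain ⟨q, hq⟩ := h6
  have hqh : q.IsHomogeneous (d - 1) := by
    intro m hm
    have h7 : coeff (Finsupp.single 2 1 + m) (act M N V 2) ≠ 0 := by
      rw [hq, coeff_X_mul]; exact hm
    have h8 := hA.hom 2 h7
    rw [map_add, Finsupp.weight_single] at h8
    simp only [Pi.one_apply, smul_eq_mul, mul_one] at h8
    omega
  have hact : ∀ i, act M N V i + (-q) * X i =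
      (![act M N V 0 - q * X 0, act M N V 1 - q * X 1, 0] : Fin 3 → R3) i := by
    intro i
    fin_cases i
    · simp; ring
    · simp; ring
    · simp [hq]; ring
  have h9 := infl_norm h1 h3 hd hV h2 h hqh.neg hact
  exact ⟨-q, _, _, hact, h9.2, h9.1⟩

end Pool.Agent.W510.Cvx
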